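import Mathlib
import Pool.Agent.H8.Hfc2

set_option autoImplicit false

namespace Pool.Agent.Results.MP_c26d8e_gt.CH

open Set Filter Topology Function TopologicalSpace Pool.Agent.H8.Mich Pool.Agent.H8.Hfc

theorem result (h : Cardinal.continuum.{0} = Cardinal.aleph 1) :
    ¬ (∀ (X : Type) [TopologicalSpace X] [T35Space X],
      (∀ n : ℕ, HereditarilyLindelofSpace (Fin n → X)) →
        ∃ Z : Set (X → ℝ), {f : X → ℝ | Continuous f} ⊆ Z ∧ IsLindelof Z) := by
  classical
  intro H
  obtain ⟨r, x, wo, hseg, h1, ⟨e, h2, h3⟩, hx⟩ := build2 h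
  haveI : T35Space (range x) := IsEmbedding.subtypeVal.t35Space
  obtain ⟨Z, h4, h5⟩ := H (range x) (hl wo hseg hx)
  have h6 : ∀ α (p : range x), ∃ n, p.1 (cons n α) = true := by
    rintro α ⟨_, a, rfl⟩
    exact h1 a α
  let f : J → range x → ℝ := fun α p => Nat.find (h6 α p)
  have h7 : ∀ α, Continuous (f α) := fun α =>
    ((IsLocallyConstant.iff_eventually_eq _).2 fun p => by
      filter_upwards [(eventually_all_finite (finite_Iic (Nat.find (h6 α p)))).2 fun k _ =>
        ((((continuous_apply (cons k α)).comp continuous_subtype_val).tendsto p).eventually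
          ((isOpen_discrete {p.1 (cons k α)}).mem_nhds rfl))] with q hq
      have hq : ∀ k ≤ Nat.find (h6 α p), q.1 (cons k α) = p.1 (cons k α) := hq
      refine congrArg Nat.cast ((Nat.find_eq_iff _).2 ⟨?_, fun k hk => ?_⟩)
      · rw [hq _ le_rfl]
        exact Nat.find_spec (h6 α p)
      · rw [hq k hk.le]
        exact Nat.find_min _ hk).continuous
  have h8 : ∀ a α, (∀ n, x a (cons n α) = true ↔ n = e α a) →
      f α ⟨x a, mem_range_self _⟩ = e α a := fun a α h =>
    congrArg Nat.cast ((h _).1 (Nat.find_spec (h6 α ⟨x a, mem_range_self _⟩)))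
  have h9 : ∀ a, {α | ¬ r a α}.Countable := fun a => ((hseg a).insert a).mono fun α hα => by
    rcases trichotomous_of r a α with h | h | h
    exacts [absurd h hα, Or.inl h.symm, Or.inr h]
  have : ∀ g : range x → ℝ, ∃ U ∈ 𝓝 g, {α | f α ∈ U}.Countable := fun g => by
    obtain ⟨a, b, h10, h11⟩ : ∃ a b : J, ⌊2 * g ⟨x a, mem_range_self _⟩⌋ =
        ⌊2 * g ⟨x b, mem_range_self _⟩⌋ ∧ a ≠ b := by
      by_contra hc
      push Not at hc
      exact not_countable (Injective.countable (f := fun a : J => ⌊2 * g ⟨x a, mem_range_self _⟩⌋)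
        fun a b h => hc a b h)
    refine ⟨{k | |k ⟨x a, mem_range_self _⟩ - g ⟨x a, mem_range_self _⟩| < 1 / 4 ∧
      |k ⟨x b, mem_range_self _⟩ - g ⟨x b, mem_range_self _⟩| < 1 / 4},
      IsOpen.mem_nhds (IsOpen.and (isOpen_lt (by fun_prop) continuous_const)
        (isOpen_lt (by fun_prop) continuous_const)) ⟨by simp, by simp⟩,
      (((h3 a).union (h3 b)).union ((h9 a).union (h9 b))).mono fun α hα => by_contra fun hc => ?_⟩
    simp only [mem_union, mem_setOf_eq, not_or, not_not] at hc hα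
    rw [h8 a α hc.1.1, h8 b α hc.1.2, abs_lt, abs_lt] at hα
    have h12 := abs_lt.1 (Int.abs_sub_lt_one_of_floor_eq_floor h10)
    refine h11 (h2 α hc.2.1 hc.2.2 (le_antisymm (Nat.lt_add_one_iff.1 ?_) (Nat.lt_add_one_iff.1 ?_)))
    · exact_mod_cast (by linarith [hα.1.2, hα.2.1, h12.2] : (e α a : ℝ) < e α b + 1)
    · exact_mod_cast (by linarith [hα.1.1, hα.2.2, h12.1] : (e α b : ℝ) < e α a + 1)
  choose U h10 h11 using this
  obtain ⟨t, h12, -, h13⟩ := h5.elim_nhds_subcover U fun g _ => h10 g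
  refine not_countable_univ ((h12.biUnion fun g _ => h11 g).mono fun α _ => ?_)
  obtain ⟨g, h14, h15⟩ := mem_iUnion₂.1 (h13 (h4 (h7 α)))
  exact mem_iUnion₂.2 ⟨g, h14, h15⟩

end Pool.Agent.Results.MP_c26d8e_gt.CH
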